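import Pool.Agent.Run7.h108.HD.FinB
import Pool.Agent.Run7.h442.HD.All

set_option autoImplicit false

/-!
# The Bernoulli Anderson model in high dimension: localization length beyond the mean free path

`Δ_ω = -Δ + ω` on the discrete torus `(ℤ/L)^d`, `ω_j` iid fair signs, of any side `L ≥ d^8`, as
`d → ∞`. With probability at least `1 - ε` all but `ε L^d` of the `L^d` eigenvectors (of all energies)
have in every slab of half width `d^(1/2 + 1/500)` orthogonal to a given direction, hence in every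
cube of this half side, less than the fraction `ε` of their mass. The mean free path in each
coordinate direction is of order `d^(1/2)`.

Project HD: plan, statements and assembly by helper442; proofs of the parts by helpers 442, 216, 304,
842, 973, 651, 376 and 108.
-/

namespace Pool.Agent.Results.MP_d0f69c_mp.LocalizationLengthHighDim

open MeasureTheory
open scoped ENNReal

noncomputable section

/-- The law of a fair sign: `P(ω_j = 1) = P(ω_j = -1) = 1 / 2`. -/
def signs : Measure ℝ := (1 / 2 : ℝ≥0∞) • Measure.dirac 1 + (1 / 2 : ℝ≥0∞) • Measure.dirac (-1)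

/-- the discrete torus `(ℤ/L)^d` -/
abbrev Torus (d L : ℕ) : Type := Fin d → ZMod L

/-- `u` solves `Δ_ω u = E u` on the torus,
`(Δ_ω u)(x) = -∑_{|n| = 1} (u(x + n) - u(x)) + ω_x u(x)`. -/
def IsEigenvector {d L : ℕ} (ω : Torus d L → ℝ) (E : ℝ) (u : Torus d L → ℂ) : Prop :=
  ∀ x, -(∑ i : Fin d, ((u (x + Pi.single i 1) - u x) + (u (x - Pi.single i 1) - u x))) +
    ((ω x : ℝ) : ℂ) * u x = E * u x

/-- the slab `{x : |x_i - c| ≤ r}` of the torus -/
def slab {d L : ℕ} (r : ℝ) (i : Fin d) (c : ZMod L) : Set (Torus d L) :=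
  {x | ∃ m : ℤ, |(m : ℝ)| ≤ r ∧ x i = c + (m : ZMod L)}

open Classical in
/-- the mass `∑_{x ∈ A} |u x|²` of `u` in the set `A` -/
def mass {d L : ℕ} [NeZero L] (u : Torus d L → ℂ) (A : Set (Torus d L)) : ℝ :=
  ∑ x, if x ∈ A then ‖u x‖ ^ 2 else 0

/-- For every `ε > 0` there is `d₀` such that for all `d ≥ d₀`, all `L ≥ d^8` and every direction `i`
there is a set `S` of potentials on the torus of side `L` with probability at least `1 - ε` such that
for `ω ∈ S` the following holds: a family of orthonormal eigenvectors of `Δ_ω`, each of which has at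
least the fraction `ε` of its mass in some slab `{|x_i - c| ≤ d^(1/2 + 1/500)}`, has at most `ε L^d`
members. -/
theorem result (ε : ℝ) (hε : 0 < ε) : ∃ d₀ : ℕ, ∀ (d L : ℕ) [NeZero L], d₀ ≤ d →
    (d : ℝ) ^ 8 ≤ L → ∀ i : Fin d, ∃ S : Set (Torus d L → ℝ), MeasurableSet S ∧
      1 - ε ≤ (Measure.pi fun _ : Torus d L => signs).real S ∧
      ∀ ω ∈ S, ∀ (ι : Type) [Fintype ι] (u : ι → EuclideanSpace ℂ (Torus d L)) (E : ι → ℝ),
        Orthonormal ℂ u → (∀ j, IsEigenvector ω (E j) (u j)) →
        (∀ j, ∃ c : ZMod L, ε ≤ mass (u j) (slab ((d : ℝ) ^ (1 / 2 + 1 / 500 : ℝ)) i c)) →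
        (Fintype.card ι : ℝ) ≤ ε * (L : ℝ) ^ d :=
  _root_.Run7.h108.HDF.locB _root_.Run7.h442.HD.loc ε hε

end

end Pool.Agent.Results.MP_d0f69c_mp.LocalizationLengthHighDim
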