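import Pool.Agent.Run7.h108.HD.FinB
import Pool.Agent.Run7.h442.HD.All

set_option autoImplicit false

/-!
# The Bernoulli Anderson model in high dimension: diffusion beyond the mean free time

`Δ_ω = -Δ + ω` on `ℓ²(ℤ^d)`, `ω_j` iid fair signs, as `d → ∞` (the coupling stays equal to one). The
density of states of `-Δ` is asymptotically Gaussian, centred at `2 d` with standard deviation
`√(2 d)`; the scattering rate is of order `d^(-1/2)`. For all energies with `|E - 2 d| ≤ A √d`, and all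
spectral widths `t` with `d^(-(1/2 + 1/200)) ≤ t ≤ w d^(-1/2)`, the density
`x ↦ |(Δ_ω - E - i t)⁻¹(0, x)|²` is, in mean square over the disorder, the diffusive one.

Project HD: plan, statements and assembly by helper442; proofs of the parts by helpers 442, 216, 304,
842, 973, 651, 376 and 108.
-/

namespace Pool.Agent.Results.MP_d0f69c_mp.QuantumDiffusionHighDim

open MeasureTheory
open scoped ENNReal

noncomputable section

/-- The law of a fair sign: `P(ω_j = 1) = P(ω_j = -1) = 1 / 2`. -/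
def signs : Measure ℝ := (1 / 2 : ℝ≥0∞) • Measure.dirac 1 + (1 / 2 : ℝ≥0∞) • Measure.dirac (-1)

/-- `u` is square summable and `(Δ_ω - z) u = δ_0`, i.e. `u = (Δ_ω - z)⁻¹ δ_0`, where
`(Δ_ω u)(x) = -∑_{|n| = 1} (u(x + n) - u(x)) + ω_x u(x)` on `ℤ^d`. -/
def IsGreen {d : ℕ} (z : ℂ) (ω : (Fin d → ℤ) → ℝ) (u : (Fin d → ℤ) → ℂ) : Prop :=
  (Summable fun x => ‖u x‖ ^ 2) ∧
  ∀ x, -(∑ i : Fin d, ((u (x + Pi.single i 1) - u x) + (u (x - Pi.single i 1) - u x))) +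
    ((ω x : ℝ) : ℂ) * u x - z * u x = if x = 0 then 1 else 0

/-- The Fourier transform `∑_x exp (i p·x) |u x|²` of the density of `u`. -/
def dens {d : ℕ} (u : (Fin d → ℤ) → ℂ) (p : Fin d → ℝ) : ℂ :=
  ∑' x : Fin d → ℤ, Complex.exp (Complex.I * ((∑ i, p i * x i : ℝ) : ℂ)) * ((‖u x‖ ^ 2 : ℝ) : ℂ)

/-- `(√π / 2) exp (-(E - 2 d)² / (4 d))`: asymptotically `π √d` times the density of states of `-Δ`
at the energy `E`. -/
def gau (d : ℕ) (E : ℝ) : ℝ := Real.sqrt Real.pi / 2 * Real.exp (-((E - 2 * d) ^ 2 / (4 * d)))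

/-- The potential `ω` being iid fair signs: for all `P` with `∑ |P_i| ≤ M` and
`G = (Δ_ω - E - i t)⁻¹ δ_0`,
`𝔼 |√d t ∑_x exp (i √(t / √d) P·x) |G(x)|² - g / (1 + |P|² / (2 g))|² ≤ ε`, `g = gau d E`. -/
def Diffusive (d : ℕ) (E t M ε : ℝ) : Prop :=
  ∀ P : Fin d → ℝ, ∑ i, |P i| ≤ M → ∀ G : ((Fin d → ℤ) → ℝ) → (Fin d → ℤ) → ℂ,
    (∀ ω, IsGreen ((E : ℂ) + (t : ℂ) * Complex.I) ω (G ω)) →
    Integrable (fun ω => ‖((Real.sqrt d * t : ℝ) : ℂ) *
        dens (G ω) (fun i => Real.sqrt (t / Real.sqrt d) * P i) -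
      ((gau d E / (1 + (∑ i, P i ^ 2) / (2 * gau d E)) : ℝ) : ℂ)‖ ^ 2)
      (Measure.infinitePi fun _ : Fin d → ℤ => signs) ∧
    ∫ ω, ‖((Real.sqrt d * t : ℝ) : ℂ) *
        dens (G ω) (fun i => Real.sqrt (t / Real.sqrt d) * P i) -
      ((gau d E / (1 + (∑ i, P i ^ 2) / (2 * gau d E)) : ℝ) : ℂ)‖ ^ 2
      ∂(Measure.infinitePi fun _ : Fin d → ℤ => signs) ≤ ε

/-- The Green function of `Δ_ω` exists and is unique. For all `A`, `M` and `ε` there are `w > 0` and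
`d₀` such that for `d ≥ d₀`, `|E - 2 d| ≤ A √d` and `d^(-(1/2 + 1/200)) ≤ t ≤ w / √d` the density of
`G = (Δ_ω - E - i t)⁻¹ δ_0` is diffusive, in mean square over `ω`: with `p = √(t / √d) P` and
`D = √d / g(E)`, the limit of `√d t ∑_x exp (i p·x) |G(x)|²` is `t · 2 g(E) / (2 t + D |p|²)`. -/
theorem result :
    (∀ (d : ℕ) (z : ℂ) (ω : (Fin d → ℤ) → ℝ), 0 < z.im → ∃! u, IsGreen z ω u) ∧
    ∀ A M ε : ℝ, 0 ≤ M → 0 < ε → ∃ w : ℝ, 0 < w ∧ ∃ d₀ : ℕ, ∀ d : ℕ, d₀ ≤ d →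
      ∀ E t : ℝ, |E - 2 * d| ≤ A * Real.sqrt d → (d : ℝ) ^ (-(1 / 2 + 1 / 200 : ℝ)) ≤ t →
        t ≤ w / Real.sqrt d → Diffusive d E t M ε :=
  ⟨fun _ => _root_.Run7.h108.HDF.green_eu, fun A M ε hM hε => _root_.Run7.h108.HDF.diffB _root_.Run7.h442.HD.qd A M ε hM hε⟩

end

end Pool.Agent.Results.MP_d0f69c_mp.QuantumDiffusionHighDim
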