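import Pool.Agent.Run7.h251.AN.AC
import Pool.Agent.Run7.h251.AN.QD
import Pool.Agent.Run7.h251.AN.LL

set_option autoImplicit false

/-!
# The two-dimensional Bernoulli Anderson model at weak coupling

`H_lam = -Δ + lam ω` on `ℤ²`, `ω_j` iid fair signs, as `lam → 0`.

(1) For every compact interval `[a₁, a₂]` of bulk energies (inside `(0, 4)` or inside `(4, 8)`) and
every `κ < 1 / 24` there is, for all small `lam > 0`, a continuous function `b` with
`|b| ≤ lam ^ (2 + κ)` and hopping amplitudes at most `C lam ^ (2 + κ) / (1 + |x|) ^ (2 / 3)` such that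
`H_lam + b(-Δ)` has almost surely purely absolutely continuous spectrum filling `(a₁, a₂)`.

(2) Quantum diffusion with the kinetic diffusion constant, in mean square over the disorder, energy
resolved, at all spectral widths `t` with `lam ^ (2 + κ) ≤ t ≤ s lam ^ 2`, `κ < 2 / 15`.

(3) On the tori `(ℤ/L)²` with `L ≥ lam⁻¹³`: with probability at least `1 - ε` all but `ε L²` of the
eigenvectors have less than the fraction `ε` of their mass in every strip of width `2 lam ^ (-b)`,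
`b < 31 / 15`.

All three are beyond the kinetic scale `lam²` (the mean free path is of order `lam⁻²`).

The theorems for general laws are by helper442 and helper108 (page MP_562b47_mp:
BelowKineticScaleAC2D, QuantumDiffusion2D, LocalizationLength2D).
-/

namespace Pool.Agent.Results.MP_d0f69c_mp.WeakCoupling2D

open MeasureTheory ProbabilityTheory Filter Topology
open scoped ENNReal

noncomputable section

/-- The law of `lam ω_j`: the values `lam` and `-lam`, each with probability `1 / 2`. -/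
def signs (lam : ℝ) : Measure ℝ :=
  (1 / 2 : ℝ≥0∞) • Measure.dirac lam + (1 / 2 : ℝ≥0∞) • Measure.dirac (-lam)

/-! ### Absolutely continuous spectrum -/

/-- The hopping amplitudes of `b(-Δ)` on `ℤ²`: the Fourier coefficients of the symbol
`b(∑ i (2 - 2 cos (2 π k_i)))`. -/
def hopping (b : ℝ → ℝ) (x : Fin 2 → ℤ) : ℂ :=
  UnitAddTorus.mFourierCoeff
    (fun k : UnitAddTorus (Fin 2) => ((b (∑ i, (2 - 2 * (fourier 1 (k i)).re)) : ℝ) : ℂ)) x

/-- `(Δ_ω + b(-Δ)) u (x)`, where `(Δ_ω u)(x) = -∑_{|n| = 1} (u(x + n) - u(x)) + ω_x u(x)`. -/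
def H (b : ℝ → ℝ) (ω : (Fin 2 → ℤ) → ℝ) (u : (Fin 2 → ℤ) → ℂ) (x : Fin 2 → ℤ) : ℂ :=
  -(∑ i : Fin 2, ((u (x + Pi.single i 1) - u x) + (u (x - Pi.single i 1) - u x)))
    + ((ω x : ℝ) : ℂ) * u x + ∑' y, hopping b (x - y) * u y

/-- `u` is square summable and `(H - z) u = δ_x`, i.e. `u = (H - z)⁻¹ δ_x`. -/
def IsGreenB (b : ℝ → ℝ) (ω : (Fin 2 → ℤ) → ℝ) (z : ℂ) (x : Fin 2 → ℤ)
    (u : (Fin 2 → ℤ) → ℂ) : Prop :=
  Summable (fun y => ‖u y‖ ^ 2) ∧ ∀ y, H b ω u y - z * u y = if y = x then 1 else 0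

/-- Purely absolutely continuous spectrum filling the interval `(a₁, a₂)`: for every site `x` the
spectral measure `μ` of `δ_x`, i.e. the finite measure with
`⟨δ_x, (H - z)⁻¹ δ_x⟩ = ∫ dμ(E) / (E - z)`, has on `(a₁, a₂)` a density `h`, positive almost
everywhere there. -/
def ACOn (b : ℝ → ℝ) (ω : (Fin 2 → ℤ) → ℝ) (a₁ a₂ : ℝ) : Prop :=
  ∀ x : Fin 2 → ℤ, ∃ (μ : Measure ℝ) (h : ℝ → ℝ), IsFiniteMeasure μ ∧
    (∀ z : ℂ, 0 < z.im → (∃ u, IsGreenB b ω z x u) ∧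
      ∀ u, IsGreenB b ω z x u → u x = ∫ E : ℝ, 1 / ((E : ℂ) - z) ∂μ) ∧
    Measurable h ∧ (∀ᵐ E ∂(volume.restrict (Set.Ioo a₁ a₂)), 0 < h E) ∧
    μ.restrict (Set.Ioo a₁ a₂)
      = (volume.restrict (Set.Ioo a₁ a₂)).withDensity fun E => ENNReal.ofReal (h E)

/-- The potential being iid with law `μ`, there is a continuous function `b` with `|b| ≤ ε` and
hopping amplitudes at most `C ε / (1 + |x|) ^ (2 / 3)`, `|x| = max |x_i|`, for which the spectrum of
`Δ_ω + b(-Δ)` in `(a₁, a₂)` is almost surely purely absolutely continuous and fills this interval. -/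
def SmallChangeAC (C a₁ a₂ ε : ℝ) (μ : Measure ℝ) : Prop :=
  ∃ b : ℝ → ℝ, Continuous b ∧ (∀ t, |b t| ≤ ε) ∧
    (∀ x : Fin 2 → ℤ, ‖hopping b x‖ ≤ C * ε / (1 + ‖x‖) ^ ((2 : ℝ) / 3)) ∧
    ∀ᵐ ω ∂(Measure.infinitePi fun _ : Fin 2 → ℤ => μ), ACOn b ω a₁ a₂

/-! ### Quantum diffusion -/

/-- `u` is square summable and `(Δ_ω - z) u = δ_0`, i.e. `u = (Δ_ω - z)⁻¹ δ_0`, where
`(Δ_ω u)(x) = -∑_{|n| = 1} (u(x + n) - u(x)) + ω_x u(x)` on `ℤ²`. -/
def IsGreen (z : ℂ) (ω : (Fin 2 → ℤ) → ℝ) (u : (Fin 2 → ℤ) → ℂ) : Prop :=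
  (Summable fun x => ‖u x‖ ^ 2) ∧
  ∀ x, -(∑ i : Fin 2, ((u (x + Pi.single i 1) - u x) + (u (x - Pi.single i 1) - u x))) +
    ((ω x : ℝ) : ℂ) * u x - z * u x = if x = 0 then 1 else 0

/-- The Fourier transform `∑_x exp (i p·x) |u x|²` of the density of `u`. -/
def dens (u : (Fin 2 → ℤ) → ℂ) (p : Fin 2 → ℝ) : ℂ :=
  ∑' x : Fin 2 → ℤ, Complex.exp (Complex.I * ((∑ i, p i * x i : ℝ) : ℂ)) * ((‖u x‖ ^ 2 : ℝ) : ℂ)

/-- `(2 π)^(-2) ∫_{[0, 2 π]^2} f(k) δ_η(e(k) - E) dk` with `e(k) = ∑ (2 - 2 cos k_i)`, the symbol of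
`-Δ`, and the Poisson kernel `δ_η(x) = π⁻¹ η / (x² + η²)`. -/
def shell (f : (Fin 2 → ℝ) → ℝ) (E η : ℝ) : ℝ :=
  ((2 * Real.pi) ^ 2)⁻¹ * ∫ k in Set.Icc (0 : Fin 2 → ℝ) (fun _ => 2 * Real.pi),
    f k * (Real.pi⁻¹ * (η / ((∑ i, (2 - 2 * Real.cos (k i)) - E) ^ 2 + η ^ 2)))

/-- The potential `ω` being iid with law `signs lam`: for all `P` with `|P_i| ≤ M` and
`G = (Δ_ω - E - i t)⁻¹ δ_0`,
`𝔼 |t ∑_x exp (i √(lam² t) P·x) |G(x)|² - π r / (1 + |P|² w / (4 π r²))|² ≤ ε`. -/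
def Diffusive (lam E t r w M ε : ℝ) : Prop :=
  ∀ P : Fin 2 → ℝ, (∀ i, |P i| ≤ M) → ∀ G : ((Fin 2 → ℤ) → ℝ) → (Fin 2 → ℤ) → ℂ,
    (∀ ω, IsGreen ((E : ℂ) + (t : ℂ) * Complex.I) ω (G ω)) →
    Integrable (fun ω => ‖(t : ℂ) * dens (G ω) (fun i => Real.sqrt (lam ^ 2 * t) * P i) -
      ((Real.pi * r / (1 + (∑ i, P i ^ 2) * (w / (4 * Real.pi * r ^ 2))) : ℝ) : ℂ)‖ ^ 2)
      (Measure.infinitePi fun _ : Fin 2 → ℤ => signs lam) ∧
    ∫ ω, ‖(t : ℂ) * dens (G ω) (fun i => Real.sqrt (lam ^ 2 * t) * P i) -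
      ((Real.pi * r / (1 + (∑ i, P i ^ 2) * (w / (4 * Real.pi * r ^ 2))) : ℝ) : ℂ)‖ ^ 2
      ∂(Measure.infinitePi fun _ : Fin 2 → ℤ => signs lam) ≤ ε

/-! ### Eigenvectors on large tori -/

/-- the discrete torus `(ℤ/L)²` -/
abbrev Torus (L : ℕ) : Type := Fin 2 → ZMod L

/-- `u` solves `Δ_ω u = E u` on the torus. -/
def IsEigenvector {L : ℕ} (ω : Torus L → ℝ) (E : ℝ) (u : Torus L → ℂ) : Prop :=
  ∀ x, -(∑ i : Fin 2, ((u (x + Pi.single i 1) - u x) + (u (x - Pi.single i 1) - u x))) +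
    ((ω x : ℝ) : ℂ) * u x = E * u x

/-- the strip `{x : |x_i - z| ≤ r}` of the torus -/
def strip {L : ℕ} (r : ℝ) (i : Fin 2) (z : ZMod L) : Set (Torus L) :=
  {x | ∃ m : ℤ, |(m : ℝ)| ≤ r ∧ x i = z + (m : ZMod L)}

open Classical in
/-- the mass `∑_{x ∈ A} |u x|²` of `u` in the set `A` -/
def mass {L : ℕ} [NeZero L] (u : Torus L → ℂ) (A : Set (Torus L)) : ℝ :=
  ∑ x, if x ∈ A then ‖u x‖ ^ 2 else 0

/-- The potential `ω` on the torus of side `L` being iid with law `μ`: there is a set `S` of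
potentials with probability at least `1 - ε` such that for `ω ∈ S` the following holds: a family of
orthonormal eigenvectors of `Δ_ω`, each of which has at least the fraction `ε` of its mass in some
strip of width `2 r`, has at most `ε L²` members. -/
def Spread (μ : Measure ℝ) (L : ℕ) [NeZero L] (r ε : ℝ) : Prop :=
  ∃ S : Set (Torus L → ℝ), MeasurableSet S ∧
    1 - ε ≤ (Measure.pi fun _ : Torus L => μ).real S ∧
    ∀ ω ∈ S, ∀ (ι : Type) [Fintype ι] (u : ι → EuclideanSpace ℂ (Torus L)) (E : ι → ℝ),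
      Orthonormal ℂ u → (∀ j, IsEigenvector ω (E j) (u j)) →
      (∀ j, ∃ (i : Fin 2) (z : ZMod L), ε ≤ mass (u j) (strip r i z)) →
      (Fintype.card ι : ℝ) ≤ ε * (L : ℝ) ^ 2

/-! ### The sign law -/

theorem signs_prob (lam : ℝ) : IsProbabilityMeasure (signs lam) := by
  refine ⟨?_⟩
  unfold signs
  rw [Measure.add_apply, Measure.smul_apply, Measure.smul_apply, measure_univ, measure_univ,
    smul_eq_mul, mul_one, one_div, ENNReal.inv_two_add_inv_two]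

theorem signs_map (lam : ℝ) : (signs 1).map (fun t => lam * t) = signs lam := by
  have hm : Measurable fun t : ℝ => lam * t := by fun_prop
  unfold signs
  rw [Measure.map_add _ _ hm, Measure.map_smul, Measure.map_smul, Measure.map_dirac' hm,
    Measure.map_dirac' hm, mul_one, mul_neg_one]

theorem signs_bdd : ∀ᵐ t ∂(signs 1), |t| ≤ 1 := by
  rw [ae_iff]
  have hs : MeasurableSet {t : ℝ | ¬ |t| ≤ 1} :=
    (measurableSet_le (f := fun t : ℝ => |t|) (by fun_prop) measurable_const).compl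
  unfold signs
  rw [Measure.add_apply, Measure.smul_apply, Measure.smul_apply, Measure.dirac_apply' _ hs,
    Measure.dirac_apply' _ hs, Set.indicator_of_notMem (by simp), Set.indicator_of_notMem (by simp)]
  simp

theorem signs_supp : signs 1 (Set.Icc (-1) 1)ᶜ = 0 := by
  have h := signs_bdd
  rw [ae_iff] at h
  have e : (Set.Icc (-1 : ℝ) 1)ᶜ = {t : ℝ | ¬ |t| ≤ 1} := by
    ext t
    simp only [Set.mem_compl_iff, Set.mem_Icc, Set.mem_ofPred_eq, abs_le]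
  rw [e]
  exact h

theorem signs_atom (a : ℝ) : signs 1 {a} < 1 := by
  unfold signs
  rw [Measure.add_apply, Measure.smul_apply, Measure.smul_apply,
    Measure.dirac_apply' _ (measurableSet_singleton a),
    Measure.dirac_apply' _ (measurableSet_singleton a)]
  by_cases h1 : (1 : ℝ) = a
  · have h2 : ¬ ((-1 : ℝ) = a) := by
      rw [← h1]
      norm_num
    have h3 : (1 : ℝ) ∈ ({a} : Set ℝ) := h1
    have h4 : (-1 : ℝ) ∉ ({a} : Set ℝ) := h2
    rw [Set.indicator_of_mem h3, Set.indicator_of_notMem h4]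
    simp
  · have h3 : (1 : ℝ) ∉ ({a} : Set ℝ) := h1
    rw [Set.indicator_of_notMem h3]
    by_cases h2 : (-1 : ℝ) ∈ ({a} : Set ℝ)
    · rw [Set.indicator_of_mem h2]
      simp
    · rw [Set.indicator_of_notMem h2]
      simp

theorem signs_int (f : ℝ → ℝ) : ∫ t, f t ∂(signs 1) = (f 1 + f (-1)) / 2 := by
  unfold signs
  rw [integral_add_measure, integral_smul_measure, integral_smul_measure,
    integral_dirac, integral_dirac]
  · simp
    ring
  · exact (integrable_dirac (by simp)).smul_measure (by simp)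
  · exact (integrable_dirac (by simp)).smul_measure (by simp)

/-- **The two-dimensional Bernoulli Anderson model at weak coupling.** The potential is `lam ω` with
iid fair signs `ω_j`.

(1) There is `C` such that for `a₁ < a₂` with `0 < a₁, a₂ < 4` or `4 < a₁, a₂ < 8` and `κ < 1 / 24`,
for all small `lam > 0` a change `b(-Δ)` of the kinetic energy with `|b| ≤ lam ^ (2 + κ)` and hopping
amplitudes at most `C lam ^ (2 + κ) / (1 + |x|) ^ (2 / 3)` gives almost surely purely absolutely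
continuous spectrum filling `(a₁, a₂)`.

(2) The Green function exists and is unique. Let `0 < a`, `b < 4` and `0 < κ < 2 / 15`; for
`a ≤ |E - 4| ≤ b` let `ρ(E)` be the density of states of `-Δ` and `w(E)` the same average of
`|∇e(k)|² / 2` (both are positive). For all `M` and `ε` there is `s > 0` such that for `0 < lam ≤ s`,
`a ≤ |E - 4| ≤ b`, `lam ^ (2 + κ) ≤ t ≤ s lam²` the density of `(Δ_ω - E - i t)⁻¹ δ_0` is diffusive.

(3) Let `b < 31 / 15`. For every `ε > 0` there is `s > 0` such that for `0 < lam ≤ s` and all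
`L ≥ lam⁻¹³`, with probability at least `1 - ε` an orthonormal family of eigenvectors on the torus of
side `L`, each of which has at least the fraction `ε` of its mass in some strip of width
`2 lam ^ (-b)`, has at most `ε L²` members. -/
theorem result :
    (∃ C : ℝ, 0 < C ∧ ∀ a₁ a₂ κ : ℝ, a₁ < a₂ →
      ((0 < a₁ ∧ a₂ < 4) ∨ (4 < a₁ ∧ a₂ < 8)) → κ < 1 / 24 →
      ∃ s : ℝ, 0 < s ∧ ∀ lam : ℝ, 0 < lam → lam ≤ s →
        SmallChangeAC C a₁ a₂ (lam ^ (2 + κ)) (signs lam)) ∧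
    (∀ (z : ℂ) (ω : (Fin 2 → ℤ) → ℝ), 0 < z.im → ∃! u, IsGreen z ω u) ∧
    (∀ a b κ : ℝ, 0 < a → b < 4 → 0 < κ → κ < 2 / 15 → ∃ ρ w : ℝ → ℝ,
      (∀ E : ℝ, a ≤ |E - 4| → |E - 4| ≤ b → 0 < ρ E ∧ 0 < w E ∧
        Tendsto (shell (fun _ => 1) E) (𝓝[>] 0) (𝓝 (ρ E)) ∧
        Tendsto (shell (fun k => (∑ i, (2 * Real.sin (k i)) ^ 2) / 2) E) (𝓝[>] 0)
          (𝓝 (w E))) ∧
      ∀ M ε : ℝ, 0 ≤ M → 0 < ε → ∃ s : ℝ, 0 < s ∧ ∀ lam E t : ℝ, 0 < lam → lam ≤ s →
        a ≤ |E - 4| → |E - 4| ≤ b → lam ^ (2 + κ) ≤ t → t ≤ s * lam ^ 2 →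
          Diffusive lam E t (ρ E) (w E) M ε) ∧
    (∀ b : ℝ, b < 31 / 15 → ∀ ε : ℝ, 0 < ε → ∃ s : ℝ, 0 < s ∧ ∀ lam : ℝ, 0 < lam → lam ≤ s →
      ∀ (L : ℕ) [NeZero L], (lam ^ 13)⁻¹ ≤ (L : ℝ) → Spread (signs lam) L (lam ^ (-b)) ε) := by
  have hp := signs_prob 1
  have hne : ∀ c : ℝ, signs 1 {c} ≠ 1 := fun c => (signs_atom c).ne
  refine ⟨?_, ?_, ?_, ?_⟩
  · obtain ⟨C, hC, h⟩ := _root_.Run7.h251.AN.AC.result
    refine ⟨C, hC, fun a₁ a₂ κ h12 hE hκ => ?_⟩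
    obtain ⟨s, hs, h1⟩ := (h a₁ a₂ κ h12 hE hκ).2 (signs 1) 1 signs_bdd signs_atom
    refine ⟨s, hs, fun lam h0 hle => ?_⟩
    have h2 := h1 lam h0 hle
    rw [signs_map] at h2
    exact h2
  · exact (_root_.Run7.h251.AN.QD.result 1 1 one_pos (by norm_num) (1 / 15) (by norm_num)
      (by norm_num)).1
  · intro a b κ ha hb hκ0 hκ
    obtain ⟨-, ρ, w, h1, h2⟩ := _root_.Run7.h251.AN.QD.result a b ha hb κ hκ0 hκ
    refine ⟨ρ, w, h1, fun M ε hM hε => ?_⟩
    obtain ⟨s, hs, h3⟩ := (h2 M ε hM hε).2 (signs 1) 1 signs_supp hne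
    refine ⟨s, hs, fun lam E t h4 h5 h6 h7 h8 h9 => ?_⟩
    have h10 := h3 lam E t h4 h5 h6 h7 h8 h9
    have e1 : ∫ x, x ∂(signs 1) = 0 := by
      rw [signs_int (fun x => x)]
      norm_num
    have e2 : ∫ x, (x - 0) ^ 2 ∂(signs 1) = 1 := by
      rw [signs_int (fun x => (x - 0) ^ 2)]
      norm_num
    rw [e1, e2, mul_zero, mul_one, signs_map] at h10
    intro P hP G hG
    exact h10 P hP G (fun ω => by
      have := hG ω
      rw [add_zero]
      exact this)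
  · intro b hb ε hε
    obtain ⟨s, hs, h⟩ := (_root_.Run7.h251.AN.LL.result b hb ε hε).2 (signs 1) 1 signs_supp hne
    refine ⟨s, hs, fun lam h0 hle L _ hL => ?_⟩
    have h2 := h lam h0 hle L hL
    rw [signs_map] at h2
    exact h2

end

end Pool.Agent.Results.MP_d0f69c_mp.WeakCoupling2D
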